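import Pool.Agent.helper15.P2.SpecI

/-!
# Row p2:BRC (MP_063734_an): the maximal inverse branch
-/

set_option autoImplicit false

open scoped ContDiff Topology ComplexConjugate
open MeasureTheory Filter Set Metric

namespace Pool.Agent.P2I

open Pool.Agent.P2

theorem BRC_zero (P Q : ℂ → ℂ) (z : ℂ) : Br P Q (ball 0 1) z 0 (fun _ => z) := by
  refine ⟨?_, rfl, ?_⟩
  · rw [ball_zero]
    exact fun x hx => absurd hx (notMem_empty x)
  · intro t ht
    rw [ball_zero] at ht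
    exact absurd ht (notMem_empty t)

theorem BRC_bdd (P Q : ℂ → ℂ) (z : ℂ) : BddAbove {τ : ℝ | 0 ≤ τ ∧ τ ≤ 1 ∧ ∃ X : ℂ → ℂ, Br P Q (ball 0 1) z τ X} :=
  ⟨1, fun _ h => h.2.1⟩

theorem BRC_ne (P Q : ℂ → ℂ) (z : ℂ) : {τ : ℝ | 0 ≤ τ ∧ τ ≤ 1 ∧ ∃ X : ℂ → ℂ, Br P Q (ball 0 1) z τ X}.Nonempty :=
  ⟨0, le_rfl, zero_le_one, _, BRC_zero P Q z⟩

theorem BRC (hBRA : BRA_stmt) : BRC_stmt := by
  intro P Q hA z hz
  have hnn : 0 ≤ rh P Q z := le_csSup (BRC_bdd P Q z) ⟨le_rfl, zero_le_one, _, BRC_zero P Q z⟩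
  have h1 : rh P Q z ≤ 1 := csSup_le (BRC_ne P Q z) fun _ h => h.2.1
  have h5 : ∀ (τ : ℝ) (X : ℂ → ℂ), τ ≤ 1 → Br P Q (ball 0 1) z τ X → τ ≤ rh P Q z := by
    intro τ X hτ hX
    rcases lt_or_ge τ 0 with h | h
    · exact h.le.trans hnn
    · exact le_csSup (BRC_bdd P Q z) ⟨h, hτ, X, hX⟩
  have h3 : ∃ X : ℂ → ℂ, Br P Q (ball 0 1) z (rh P Q z) X := by
    rcases hnn.eq_or_lt with h0 | h0
    · rw [← h0]
      exact ⟨_, BRC_zero P Q z⟩
    · have hex : ∀ t : ℂ, ∃ (τ : ℝ) (X : ℂ → ℂ), ‖t‖ < rh P Q z → (‖t‖ < τ ∧ τ ≤ rh P Q z ∧ Br P Q (ball 0 1) z τ X) := by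
        intro t
        by_cases ht : ‖t‖ < rh P Q z
        · obtain ⟨τ, ⟨hτ0, hτ1, X, hX⟩, htτ⟩ := exists_lt_of_lt_csSup (BRC_ne P Q z) ht
          exact ⟨τ, X, fun _ => ⟨htτ, h5 τ X hτ1 hX, hX⟩⟩
        · exact ⟨0, fun _ => 0, fun h => absurd h ht⟩
      choose τ X hX using hex
      have huni := (hBRA P Q hA z hz).2.2
      have key : ∀ s : ℂ, ‖s‖ < rh P Q z → ∀ t ∈ ball (0 : ℂ) (τ s), X t t = X s t := by
        intro s hs t ht
        obtain ⟨a1, a2, a3⟩ := hX s hs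
        have ht' : ‖t‖ < τ s := by simpa using ht
        obtain ⟨b1, b2, b3⟩ := hX t (lt_of_lt_of_le ht' a2)
        exact huni (τ t) (τ s) (X t) (X s) b3 a3 t (by simpa using b1) ht
      refine ⟨fun t => X t t, ?_, ?_, ?_⟩
      · intro s hs
        have hs' : ‖s‖ < rh P Q z := by simpa using hs
        obtain ⟨a1, a2, a3⟩ := hX s hs'
        have hsm : s ∈ ball (0 : ℂ) (τ s) := by simpa using a1
        have hd : DifferentiableAt ℂ (X s) s := a3.1.differentiableAt (isOpen_ball.mem_nhds hsm)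
        have he : (fun t => X t t) =ᶠ[𝓝 s] X s := by
          filter_upwards [isOpen_ball.mem_nhds hsm] with t ht using key s hs' t ht
        exact (hd.congr_of_eventuallyEq he).differentiableWithinAt
      · exact (hX 0 (by simpa using h0)).2.2.2.1
      · intro t ht
        have ht' : ‖t‖ < rh P Q z := by simpa using ht
        obtain ⟨a1, a2, a3⟩ := hX t ht'
        exact a3.2.2 t (by simpa using a1)
  refine ⟨hnn, h1, h3, ?_, h5⟩
  intro hW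
  by_contra hne
  have hpos : 0 < rh P Q z := lt_of_le_of_ne hnn (Ne.symm hne)
  obtain ⟨X, hX⟩ := h3
  exact ((hBRA P Q hA z hz).2.1 (rh P Q z) X hpos hX).1 hW

end Pool.Agent.P2I
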