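import Pool.Agent.helper15.P2.SpecI

/-!
# Row p2:BRO (MP_063734_an): the univalence radius is lower semicontinuous
-/

set_option autoImplicit false

open scoped ContDiff Topology ComplexConjugate
open MeasureTheory Filter Set Metric

namespace Pool.Agent.P2I

open Pool.Agent.P2

theorem BRO_ineq {ρ τ' : ℝ} (hρ1 : ρ ≤ 1) (hτρ : τ' < ρ) (t s : ℂ) (ht : ‖t‖ < (ρ - τ') / 2) (hs : ‖s‖ < τ') :
    ‖s + t‖ < ρ * ‖1 - conj t * s‖ := by
  have h1 : ‖s + t‖ ≤ ‖s‖ + ‖t‖ := norm_add_le _ _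
  have h2 : 1 - ‖t‖ * ‖s‖ ≤ ‖1 - conj t * s‖ := by
    have := norm_sub_norm_le (1 : ℂ) (conj t * s)
    rw [norm_one, norm_mul, RCLike.norm_conj] at this
    exact this
  have ht0 := norm_nonneg t
  have hs0 := norm_nonneg s
  have h3 : ‖t‖ * ‖s‖ ≤ ‖t‖ * 1 := mul_le_mul_of_nonneg_left (by linarith) ht0
  have h4 : ρ * (1 - ‖t‖) ≤ ρ * ‖1 - conj t * s‖ := mul_le_mul_of_nonneg_left (by linarith) (by linarith)
  have h5 : ρ * ‖t‖ ≤ 1 * ‖t‖ := mul_le_mul_of_nonneg_right hρ1 ht0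
  nlinarith

theorem BRO (hBRA : BRA_stmt) (hBRC : BRC_stmt) (hBRS : BRS_stmt) : BRO_stmt := by
  intro P Q hA
  have hop : ∀ c : ℝ, IsOpen {z : ℂ | z ∈ ball (0 : ℂ) 1 ∧ c < rh P Q z} := by
    intro c
    rcases lt_or_ge c 0 with hc | hc
    · have he : {z : ℂ | z ∈ ball (0 : ℂ) 1 ∧ c < rh P Q z} = ball (0 : ℂ) 1 := by
        ext z
        constructor
        · exact fun h => h.1
        · exact fun h => ⟨h, lt_of_lt_of_le hc (hBRC P Q hA z h).1⟩
      rw [he]
      exact isOpen_ball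
    · rw [isOpen_iff_mem_nhds]
      rintro z ⟨hz, hcz⟩
      obtain ⟨hnn, hle, ⟨X, hX⟩, -, -⟩ := hBRC P Q hA z hz
      obtain ⟨τ', h1, h2⟩ := exists_between hcz
      have hpos : 0 < rh P Q z := by linarith
      have hη : 0 < (rh P Q z - τ') / 2 := by linarith
      have hsub : ball (0 : ℂ) ((rh P Q z - τ') / 2) ⊆ X ⁻¹' {z : ℂ | z ∈ ball (0 : ℂ) 1 ∧ c < rh P Q z} := by
        intro t ht
        have ht' : ‖t‖ < (rh P Q z - τ') / 2 := by simpa using ht
        have htm : t ∈ ball (0 : ℂ) (rh P Q z) := by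
          rw [mem_ball_zero_iff]
          linarith
        have hXt : X t ∈ ball (0 : ℂ) 1 := (hX.2.2 t htm).1
        obtain ⟨l, -, hl⟩ := hBRS P Q hA z hz (ball 0 1) (rh P Q z) X subset_rfl hle hX t htm
        have hb := hl τ' (fun s hs => BRO_ineq hle h2 t s ht' (by simpa using hs))
        have := (hBRC P Q hA (X t) hXt).2.2.2.2 τ' _ (by linarith) hb
        exact ⟨hXt, lt_of_lt_of_le h1 this⟩
      have h0m : (0 : ℂ) ∈ ball (0 : ℂ) (rh P Q z) := mem_ball_self hpos
      have han : AnalyticAt ℂ X 0 := hX.1.analyticAt (isOpen_ball.mem_nhds h0m)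
      have hd : deriv X 0 ≠ 0 := by
        intro h
        have := ((hBRA P Q hA z hz).2.1 (rh P Q z) X hpos hX).2.2 0 h0m
        have h3 := this.2.2.2
        rw [h] at h3
        simp at h3
      have hmap := (han.hasStrictDerivAt).map_nhds_eq hd
      rw [hX.2.1] at hmap
      rw [← hmap, Filter.mem_map]
      exact mem_of_superset (ball_mem_nhds 0 hη) hsub
  refine ⟨hop, ?_⟩
  refine measurable_of_Ioi fun c => ?_
  rcases lt_or_ge c 0 with hc | hc
  · have he : (fun z => (ball (0 : ℂ) 1).indicator (rh P Q) z) ⁻¹' Ioi c = univ := by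
      ext z
      simp only [mem_preimage, mem_Ioi, mem_univ, iff_true]
      by_cases hz : z ∈ ball (0 : ℂ) 1
      · rw [indicator_of_mem hz]
        exact lt_of_lt_of_le hc (hBRC P Q hA z hz).1
      · rw [indicator_of_notMem hz]
        exact hc
    rw [he]
    exact MeasurableSet.univ
  · have he : (fun z => (ball (0 : ℂ) 1).indicator (rh P Q) z) ⁻¹' Ioi c = {z : ℂ | z ∈ ball (0 : ℂ) 1 ∧ c < rh P Q z} := by
      ext z
      simp only [mem_preimage, mem_Ioi]
      by_cases hz : z ∈ ball (0 : ℂ) 1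
      · rw [indicator_of_mem hz]
        exact ⟨fun h => ⟨hz, h⟩, fun h => h.2⟩
      · rw [indicator_of_notMem hz]
        exact ⟨fun h => absurd h (not_lt.mpr hc), fun h => absurd h.1 hz⟩
    rw [he]
    exact (hop c).measurableSet

end Pool.Agent.P2I
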