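import Pool.Agent.helper37.P2.SpecD

/-!
# Row p2:COR (MP_063734_an): the theorem for `Core`
-/

set_option autoImplicit false

open scoped ContDiff Topology
open MeasureTheory Filter Set Metric MvPolynomial Pool.Agent.helper37.QA

namespace Pool.Agent.P2

theorem COR (hNOD : NOD_stmt) (hDIAG : DIAG_stmt) (hPRB : PRB_stmt) (hATO : ATO_stmt) (hPRS : PRS_stmt) (hFIN : FIN_stmt) : COR_stmt := by
  intro d f Us K hd hC
  obtain ⟨Λ1, Kb, hΛ, hKb, hseq⟩ := hDIAG d f Us K hd hC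
  obtain ⟨κ0, hκ0, hκ1, hκ⟩ := hNOD d f (Us 0) hd hC.good Kb (1 / 100) hKb (by norm_num)
  have hNodAt : NodAt f (Us 0) Kb (1 / 100) κ0 := hκ κ0 hκ0 le_rfl
  obtain ⟨L, N, Z, hN⟩ := hseq κ0 hκ0 hκ1
  obtain ⟨α, hα, hP⟩ := hPRB d f Us K hd hC Λ1 Kb κ0 (1 / 100) hΛ hKb hκ0 hκ1 (by norm_num) (by norm_num)
  by_cases h : ∃ (r : ℝ) (J1 : ℕ), 0 < r ∧ ∀ J ≥ J1, Non f (N J) (L J) (Z J) κ0 r α
  · obtain ⟨r, J1, hr, hJ⟩ := h
    have hPA := hP L N Z hN r J1 hr hJ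
    exact (hFIN d f Us K hd hC).1 (hPRS d f Us K hd hC Λ1 Kb κ0 L N Z hΛ hKb hκ0 hκ1 hNodAt hN hPA)
  · push Not at h
    refine hATO d f Us K hd hC Kb κ0 α hKb hκ0 hκ1 hα ?_
    intro r J1 hr
    obtain ⟨J, hJ, hnon⟩ := h r J1 hr
    obtain ⟨h1, h2, h3, h4, h5⟩ := hN.size J
    exact ⟨J, hJ, L J, N J, Z J, h1, by omega, h3, h4, h5, hnon⟩

end Pool.Agent.P2
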