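import Pool.Agent.helper37.P2.SpecD

/-!
# Row p2:QAP (MP_063734_an): every quasi-attractor contains a periodic point
-/

set_option autoImplicit false

open scoped ContDiff Topology
open MeasureTheory Filter Set Metric MvPolynomial Pool.Agent.helper37.QA

namespace Pool.Agent.P2

theorem QAP_iter {d : ℕ} {f f' : Endo 2 d} {φ : PP 2 ≃ₜ PP 2} (hφ : ∀ x, f'.map (φ x) = φ (f.map x)) (n : ℕ) (x : PP 2) :
    f'.map^[n] (φ x) = φ (f.map^[n] x) := by
  induction n with
  | zero => rfl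
  | succ n ih => rw [Function.iterate_succ_apply', ih, hφ, Function.iterate_succ_apply']

theorem QAP_trap {d : ℕ} {f f' : Endo 2 d} {φ : PP 2 ≃ₜ PP 2} (hφ : ∀ x, f'.map (φ x) = φ (f.map x)) {U : Set (PP 2)}
    (hU : IsTrapping f U) : IsTrapping f' (φ '' U) := by
  refine ⟨φ.isOpenMap _ hU.1, hU.2.1.image _, ?_⟩
  rw [← φ.image_closure]
  rintro _ ⟨_, ⟨x, hx, rfl⟩, rfl⟩
  rw [hφ]
  exact mem_image_of_mem _ (hU.2.2 (mem_image_of_mem _ hx))

theorem QAP_trap' {d : ℕ} {f f' : Endo 2 d} {φ : PP 2 ≃ₜ PP 2} (hφ : ∀ x, f'.map (φ x) = φ (f.map x)) {W : Set (PP 2)}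
    (hW : IsTrapping f' W) : IsTrapping f (φ ⁻¹' W) := by
  refine ⟨hW.1.preimage φ.continuous, ?_, ?_⟩
  · obtain ⟨w, hw⟩ := hW.2.1
    obtain ⟨x, rfl⟩ := φ.surjective w
    exact ⟨x, hw⟩
  · rw [← φ.preimage_closure]
    rintro _ ⟨x, hx, rfl⟩
    show φ (f.map x) ∈ W
    rw [← hφ]
    exact hW.2.2 (mem_image_of_mem _ hx)

theorem QAP (hCOR : COR_stmt) (hS0 : S0_stmt) (hRD1 : RD1_stmt) (hRD2 : RD2_stmt) (hRD3 : RD3_stmt) : QAP_stmt := by
  intro d f hd ι U hU hne
  obtain ⟨Us, K, hKne, hKsub, hKcl, hKinv, htr, hanti, hinter, hmin⟩ := hRD1 d f hd ι U hU hne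
  suffices hper : ∃ x ∈ K, ∃ n : ℕ, 0 < n ∧ f.map^[n] x = x by
    obtain ⟨x, hx, n, hn, hxn⟩ := hper
    exact ⟨x, hKsub hx, n, hn, hxn⟩
  by_cases hKu : K = univ
  · have huniv : IsTrapping f (univ : Set (PP 2)) := by
      refine ⟨isOpen_univ, ?_, subset_univ _⟩
      rw [← hKu]
      exact hKne
    obtain ⟨x, -, n, hn, hxn⟩ := exists_periodic hd huniv
    exact ⟨x, by rw [hKu]; exact mem_univ x, n, hn, hxn⟩
  · obtain ⟨p, hp⟩ := (ne_univ_iff_exists_notMem K).mp hKu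
    have hanti' : ∀ n, Us (n + 1) ⊆ Us n := fun n => subset_closure.trans (hanti n)
    have hAnt : Antitone Us := antitone_nat_of_succ_le hanti'
    obtain ⟨m, hm⟩ : ∃ m, p ∉ Us m := by
      rw [hinter] at hp
      simpa using hp
    obtain ⟨f', φ, hφ, hφp⟩ := hRD2 d f p
    set V : ℕ → Set (PP 2) := fun n => φ '' Us (n + m + 1) with hV
    have hVtr : ∀ n, IsTrapping f' (V n) := fun n => QAP_trap hφ (htr _)
    have hpcl : ∀ n, p ∉ closure (Us (n + m + 1)) := by
      intro n hpn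
      exact hm (hanti m (closure_mono (hAnt (by omega : m + 1 ≤ n + m + 1)) hpn))
    have hgood : ∀ n, Good0 f' (V n) := by
      intro n
      refine ⟨hVtr n, ?_⟩
      intro Z hZ h0 h1 hcl
      rw [← hφp Z hZ h0 h1, hV, ← φ.image_closure, φ.injective.mem_set_image] at hcl
      exact hpcl n hcl
    have hKU : ∀ n, K ⊆ Us n := by
      intro n
      rw [hinter]
      exact iInter_subset _ n
    have hKV : ∀ n, φ '' K ⊆ V n := fun n => image_mono (hKU _)
    have hK'inv : f'.map '' (φ '' K) ⊆ φ '' K := by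
      rintro _ ⟨_, ⟨x, hx, rfl⟩, rfl⟩
      rw [hφ]
      exact mem_image_of_mem _ (hKinv (mem_image_of_mem _ hx))
    have hback : (∃ y ∈ φ '' K, ∃ n : ℕ, 0 < n ∧ f'.map^[n] y = y) → ∃ x ∈ K, ∃ n : ℕ, 0 < n ∧ f.map^[n] x = x := by
      rintro ⟨_, ⟨x, hx, rfl⟩, n, hn, hxn⟩
      rw [QAP_iter hφ] at hxn
      exact ⟨x, hx, n, hn, φ.injective hxn⟩
    apply hback
    by_cases hch : ∀ n, Charged f' (V n)
    · refine hCOR d f' V (φ '' K) hd ?_
      refine ⟨hgood 0, hVtr, ?_, ?_, hKne.image _, ?_, hch⟩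
      · intro n
        show closure (φ '' Us (n + 1 + m + 1)) ⊆ φ '' Us (n + m + 1)
        rw [← φ.image_closure]
        have h1 : n + 1 + m + 1 = (n + m + 1) + 1 := by ring
        rw [h1]
        exact image_mono (hanti _)
      · have h1 : K = ⋂ n, Us (n + m + 1) := by
          apply Subset.antisymm
          · exact subset_iInter fun n => hKU _
          · rw [hinter]
            refine subset_iInter fun n => ?_
            exact (iInter_subset _ n).trans (hAnt (by omega))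
        rw [h1, image_iInter φ.bijective]
      · intro W hW hWK
        obtain ⟨_, hyW, ⟨x, hx, rfl⟩⟩ := hWK
        have h1 := hmin (φ ⁻¹' W) (QAP_trap' hφ hW) ⟨x, hyW, hx⟩
        rintro _ ⟨y, hy, rfl⟩
        exact h1 hy
    · push Not at hch
      obtain ⟨n, hn⟩ := hch
      obtain ⟨u, C, hg, hh⟩ := hRD3 d f' (V n) hd (hgood n) hn
      exact hS0 2 d hd f' (V n) u C (hVtr n) hg hh (φ '' K) (hKcl.isCompact.image φ.continuous) (hKne.image _) (hKV n) hK'inv

end Pool.Agent.P2
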