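import Pool.Agent.helper56.P2.SpecU

/-!
# Row p2:UALB (MP_063734_an): the slope of a branch of a sheet
-/

set_option autoImplicit false

namespace Pool.Agent.P2U

open MeasureTheory Set Filter Topology Metric Complex
open scoped ENNReal ContDiff

theorem UALB_lin (L : ℂ × ℂ →L[ℂ] ℂ) (a : ℂ) : L (a, 1) = a * L (1, 0) + L (0, 1) := by
  have h : ((a, 1) : ℂ × ℂ) = a • ((1, 0) : ℂ × ℂ) + ((0, 1) : ℂ × ℂ) := by
    ext <;> simp
  rw [h, map_add, map_smul, smul_eq_mul]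

theorem UALB_eq {P Q : ℂ × ℂ → ℂ} {r r0 : ℝ} {ζ : ℂ} (hH : Hol P Q 2 r) (hr0 : 0 < r0) (hr : r0 ≤ r)
    {x0 : ℂ} {R : ℝ} {X : ℂ → ℂ} (h0 : P (x0, 0) = ζ * Q (x0, 0)) (hR : 0 < R) (hB : Br P Q R x0 X) :
    ∀ w ∈ ball (0 : ℂ) R, P (X w, w) = ζ * Q (X w, w) := by
  intro w hw
  have hx0 : ‖x0‖ < 1 := by
    have := hB.lt 0 (mem_ball_self hR)
    rwa [hB.ini] at this
  have hm : ((x0, 0) : ℂ × ℂ) ∈ TB 2 r := by
    refine ⟨?_, ?_⟩
    · show ‖x0‖ < 2
      linarith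
    · show ‖(0 : ℂ)‖ < r
      rw [norm_zero]; linarith
  have hq0 : Q (x0, 0) ≠ 0 := by
    intro hq
    rcases hH.ne _ hm with h | h
    · apply h
      rw [h0, hq, mul_zero]
    · exact h hq
  have he := hB.eq w hw
  rw [h0] at he
  have : (P (X w, w) - ζ * Q (X w, w)) * Q (x0, 0) = 0 := by
    linear_combination he
  rcases mul_eq_zero.mp this with h | h
  · linear_combination h
  · exact absurd h hq0

theorem UALB : UALB_stmt := by
  intro P Q r r0 ζ hH hr0 hr hRg x0 R X h0 hR hRr hB w hw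
  have heq := UALB_eq hH hr0 hr h0 hR hB
  have hw' : ‖w‖ < R := by simpa using hw
  have hX1 : ‖X w‖ < 1 := hB.lt w hw
  have hq : ((X w, w) : ℂ × ℂ) ∈ TB 2 r := by
    refine ⟨?_, ?_⟩
    · show ‖X w‖ < 2
      linarith
    · show ‖w‖ < r
      linarith
  have hq1 : ((X w, w) : ℂ × ℂ) ∈ TB 1 r0 := by
    refine ⟨?_, ?_⟩
    · show ‖X w‖ < 1
      exact hX1
    · show ‖w‖ < r0
      linarith
  have hXd : HasDerivAt X (deriv X w) w :=
    (hB.an.differentiableAt (isOpen_ball.mem_nhds hw)).hasDerivAt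
  have hγ : HasDerivAt (fun z => (X z, z)) (deriv X w, (1 : ℂ)) w := hXd.prodMk (hasDerivAt_id w)
  have hPf : HasFDerivAt P (fderiv ℂ P (X w, w)) ((fun z => (X z, z)) w) := (hH.hP _ hq).differentiableAt.hasFDerivAt
  have hQf : HasFDerivAt Q (fderiv ℂ Q (X w, w)) ((fun z => (X z, z)) w) := (hH.hQ _ hq).differentiableAt.hasFDerivAt
  have hPd : HasDerivAt (fun z => P (X z, z)) (fderiv ℂ P (X w, w) (deriv X w, (1 : ℂ))) w :=
    HasFDerivAt.comp_hasDerivAt (f := fun z => (X z, z)) w hPf hγ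
  have hQd : HasDerivAt (fun z => Q (X z, z)) (fderiv ℂ Q (X w, w) (deriv X w, (1 : ℂ))) w :=
    HasFDerivAt.comp_hasDerivAt (f := fun z => (X z, z)) w hQf hγ
  have hev : (fun z => P (X z, z)) =ᶠ[𝓝 w] fun z => ζ * Q (X z, z) := by
    filter_upwards [isOpen_ball.mem_nhds hw] with z hz using heq z hz
  have hPd2 : HasDerivAt (fun z => P (X z, z)) (ζ * fderiv ℂ Q (X w, w) (deriv X w, (1 : ℂ))) w :=
    (hQd.const_mul ζ).congr_of_eventuallyEq hev
  have hd := hPd.unique hPd2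
  rw [UALB_lin (fderiv ℂ P (X w, w)), UALB_lin (fderiv ℂ Q (X w, w))] at hd
  have hPQ := heq w hw
  have hmain : cx P Q (X w, w) * deriv X w + cv P Q (X w, w) = 0 := by
    unfold cx cv dx dv
    rw [hPQ]
    linear_combination (Q (X w, w)) * hd
  have hcx : cx P Q (X w, w) ≠ 0 := by
    intro hc
    rw [hc, zero_mul, zero_add] at hmain
    rcases (hRg _ hq1 hPQ).1 with h | h
    · exact h hc
    · exact h hmain
  refine ⟨hPQ, hcx, ?_⟩
  rw [eq_div_iff (norm_ne_zero_iff.mpr hcx), ← norm_mul]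
  have : deriv X w * cx P Q (X w, w) = - cv P Q (X w, w) := by linear_combination hmain
  rw [this, norm_neg]

end Pool.Agent.P2U
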