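import Pool.Agent.helper56.P2.SpecU

/-!
# Row p2:UCNT (MP_063734_an): counting the points which are not unfolded
-/

set_option autoImplicit false

namespace Pool.Agent.P2U

open MeasureTheory Set Filter Topology Metric Complex
open scoped ENNReal ContDiff

/-- it is enough to bound the finite subsets -/
theorem UCNT_cnt_le {α : Type} (S : Set α) (b : ℝ≥0∞) (h : ∀ F : Finset α, (F : Set α) ⊆ S → (F.card : ℝ≥0∞) ≤ b) : cnt S ≤ b := by
  classical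
  by_cases hS : S.Finite
  · have h1 := h hS.toFinset (by simp)
    unfold cnt
    rw [hS.encard_eq_coe_toFinset_card]
    simpa using h1
  · have hb : b = ⊤ := by
      by_contra hb
      obtain ⟨n, hn⟩ := ENNReal.exists_nat_gt hb
      obtain ⟨t, ht, htn⟩ := Set.Infinite.exists_subset_card_eq hS n
      have := h t ht
      rw [htn] at this
      exact absurd (lt_of_lt_of_le hn this) (lt_irrefl _)
    rw [hb]
    exact le_top

theorem UCNT_card_le_cnt {α : Type} (S : Set α) (F : Finset α) (h : (F : Set α) ⊆ S) : (F.card : ℝ≥0∞) ≤ cnt S := by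
  have h1 : ((F : Set α)).encard ≤ S.encard := Set.encard_le_encard h
  rw [Set.encard_coe_eq_coe_finsetCard] at h1
  unfold cnt
  have h2 : ((F.card : ℕ∞) : ℝ≥0∞) ≤ ((S.encard : ℕ∞) : ℝ≥0∞) := ENat.toENNReal_le.mpr h1
  simpa using h2

theorem UCNT_br_mono {P Q : ℂ × ℂ → ℂ} {R R' : ℝ} {x0 : ℂ} {X : ℂ → ℂ} (h : R' ≤ R) (hB : Br P Q R x0 X) : Br P Q R' x0 X where
  an := hB.an.mono (ball_subset_ball h)
  ini := hB.ini
  lt := fun w hw => hB.lt w (ball_subset_ball h hw)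
  eq := fun w hw => hB.eq w (ball_subset_ball h hw)

theorem UCNT_lim_eq {P Q : ℂ × ℂ → ℂ} {r R : ℝ} {ζ : ℂ} {X : ℂ → ℂ} {w1 x1 : ℂ} (hH : Hol P Q 2 r)
    (hw1 : ‖w1‖ < r) (hx1 : ‖x1‖ < 1) (hL : Lim X R w1 x1)
    (heq : ∀ w ∈ ball (0 : ℂ) R, P (X w, w) = ζ * Q (X w, w)) : P (x1, w1) = ζ * Q (x1, w1) := by
  obtain ⟨w, hw, hw1', hX⟩ := hL
  have hq : ((x1, w1) : ℂ × ℂ) ∈ TB 2 r := by
    refine ⟨?_, ?_⟩
    · show ‖x1‖ < 2
      linarith
    · exact hw1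
  have ht : Tendsto (fun k => (X (w k), w k)) atTop (𝓝 (x1, w1)) := hX.prodMk_nhds hw1'
  have hP : Tendsto (fun k => P (X (w k), w k)) atTop (𝓝 (P (x1, w1))) :=
    (hH.hP _ hq).continuousAt.tendsto.comp ht
  have hQ : Tendsto (fun k => ζ * Q (X (w k), w k)) atTop (𝓝 (ζ * Q (x1, w1))) :=
    ((hH.hQ _ hq).continuousAt.tendsto.comp ht).const_mul ζ
  have he : (fun k => P (X (w k), w k)) = fun k => ζ * Q (X (w k), w k) := by
    funext k
    exact heq (w k) (by simpa using hw k)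
  rw [he] at hP
  exact tendsto_nhds_unique hP hQ

theorem UCNT_exit {R : ℝ} {x0 : ℂ} {X : ℂ → ℂ} {w1 x1 : ℂ} (hini : X 0 = x0) (hx0 : ‖x0‖ < 1 / 2) (hx1 : ‖x1‖ = 1) (hL : Lim X R w1 x1) :
    ∃ w ∈ ball (0 : ℂ) R, 1 / 4 ≤ ‖X w - X 0‖ := by
  obtain ⟨w, hw, -, hX⟩ := hL
  have hn : Tendsto (fun k => ‖X (w k)‖) atTop (𝓝 1) := by
    have := hX.norm
    rwa [hx1] at this
  have hev : ∀ᶠ k in atTop, (3 / 4 : ℝ) < ‖X (w k)‖ := hn.eventually (lt_mem_nhds (by norm_num))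
  obtain ⟨k, hk⟩ := hev.exists
  refine ⟨w k, by simpa using hw k, ?_⟩
  rw [hini]
  have := norm_sub_norm_le (X (w k)) x0
  linarith

theorem UCNT_pt (hALB : UALB_stmt) (hDIS : UDIS_stmt) {p : ℝ} {P Q : ℂ × ℂ → ℂ} {r r0 : ℝ} {ζ : ℂ}
    (hH : Hol P Q 2 r) (hr0 : 0 < r0) (hr : r0 < r) (hRg : Rg P Q r0 ζ) (B : Finset ℂ) (R : ℂ → ℝ) (X : ℂ → ℂ → ℂ)
    (hz : ∀ x ∈ B, P (x, 0) = ζ * Q (x, 0)) (hR : ∀ x ∈ B, 0 < R x ∧ R x < r0) (hB : ∀ x ∈ B, Br P Q (R x) x (X x)) (w : ℂ) :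
    ∑ x ∈ B, (ball (0 : ℂ) (R x)).indicator (fun w => ENNReal.ofReal (‖deriv (X x) w‖ ^ p)) w ≤
      ∑' x : Rt P Q ζ w, ENNReal.ofReal ((‖cv P Q (x.1, w)‖ / ‖cx P Q (x.1, w)‖) ^ p) := by
  classical
  have h1 : ∑ x ∈ B, (ball (0 : ℂ) (R x)).indicator (fun w => ENNReal.ofReal (‖deriv (X x) w‖ ^ p)) w =
      ∑ x ∈ B.filter (fun x => w ∈ ball (0 : ℂ) (R x)), ENNReal.ofReal ((‖cv P Q (X x w, w)‖ / ‖cx P Q (X x w, w)‖) ^ p) := by
    rw [Finset.sum_filter]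
    refine Finset.sum_congr rfl fun x hx => ?_
    by_cases hw : w ∈ ball (0 : ℂ) (R x)
    · rw [indicator_of_mem hw, if_pos hw]
      have := (hALB P Q r r0 ζ hH hr0 hr.le hRg x (R x) (X x) (hz x hx) (hR x hx).1 (hR x hx).2.le (hB x hx) w hw).2.2
      rw [this]
    · rw [indicator_of_notMem hw, if_neg hw]
  rw [h1, ← Finset.tsum_subtype]
  let g : {x // x ∈ B.filter (fun x => w ∈ ball (0 : ℂ) (R x))} → Rt P Q ζ w := fun x =>
    ⟨X x.1 w, by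
      have hx := Finset.mem_filter.mp x.2
      have h2 := hALB P Q r r0 ζ hH hr0 hr.le hRg x.1 (R x.1) (X x.1) (hz _ hx.1) (hR _ hx.1).1 (hR _ hx.1).2.le (hB _ hx.1) w hx.2
      exact ⟨(hB _ hx.1).lt w hx.2, h2.1, h2.2.1⟩⟩
  have hg : Function.Injective g := by
    intro a b hab
    have ha := Finset.mem_filter.mp a.2
    have hb := Finset.mem_filter.mp b.2
    have hval : X a.1 w = X b.1 w := congrArg Subtype.val hab
    apply Subtype.ext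
    have hwm : w ∈ ball (0 : ℂ) (min (R a.1) (R b.1)) := by
      have h3 := ha.2
      have h4 := hb.2
      rw [mem_ball_zero_iff] at h3 h4 ⊢
      exact lt_min h3 h4
    exact hDIS P Q r r0 ζ hH hr0 hr.le hRg a.1 b.1 (min (R a.1) (R b.1)) (X a.1) (X b.1) (hz _ ha.1) (hz _ hb.1)
      (lt_min (hR _ ha.1).1 (hR _ hb.1).1) (le_trans (min_le_left _ _) (hR _ ha.1).2.le)
      (UCNT_br_mono (min_le_left _ _) (hB _ ha.1)) (UCNT_br_mono (min_le_right _ _) (hB _ hb.1)) ⟨w, hwm, hval⟩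
  exact ENNReal.tsum_comp_le_tsum_of_injective hg
    (fun x : Rt P Q ζ w => ENNReal.ofReal ((‖cv P Q (x.1, w)‖ / ‖cx P Q (x.1, w)‖) ^ p))

theorem UCNT (hOBS : UOBS_stmt) (hALB : UALB_stmt) (hDIS : UDIS_stmt) (hTWO : UTWO_stmt) (hEXI : UEXI_stmt) : UCNT_stmt := by
  classical
  intro p hp
  obtain ⟨C, hC, hE⟩ := hEXI p hp
  refine ⟨C, hC, ?_⟩
  intro P Q r r0 ζ hH hr0 hr hr1 hRg
  apply UCNT_cnt_le
  intro F hF
  -- the data of the obstacles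
  have hdat : ∀ x : ℂ, ∃ (R : ℝ) (X : ℂ → ℂ) (w1 x1 : ℂ), x ∈ F → (0 < R ∧ R < r0 ∧ Br P Q R x X ∧ ‖w1‖ = R ∧ Lim X R w1 x1 ∧
      (‖x1‖ = 1 ∨ (‖x1‖ < 1 ∧ cx P Q (x1, w1) = 0))) := by
    intro x
    by_cases hx : x ∈ F
    · have h1 : x ∈ NN P Q r0 ∧ P (x, 0) = ζ * Q (x, 0) := hF hx
      obtain ⟨⟨hx2, hcx, hun⟩, -⟩ := h1
      obtain ⟨R, X, w1, x1, h⟩ := hOBS P Q r r0 hH hr0 hr x (by linarith) hcx hun
      exact ⟨R, X, w1, x1, fun _ => h⟩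
    · exact ⟨0, fun _ => 0, 0, 0, fun h => absurd h hx⟩
  choose R X w1 x1 hd using hdat
  have hz : ∀ x ∈ F, P (x, 0) = ζ * Q (x, 0) := fun x hx => (hF hx).2
  have hhalf : ∀ x ∈ F, ‖x‖ < 1 / 2 := fun x hx => (hF hx).1.1
  have heq : ∀ x ∈ F, ∀ w ∈ ball (0 : ℂ) (R x), P (X x w, w) = ζ * Q (X x w, w) := by
    intro x hx w hw
    obtain ⟨h1, h2, h3, -⟩ := hd x hx
    exact (hALB P Q r r0 ζ hH hr0 hr.le hRg x (R x) (X x) (hz x hx) h1 h2.le h3 w hw).1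
  set B : Finset ℂ := F.filter (fun x => ‖x1 x‖ = 1) with hBdef
  set A : Finset ℂ := F.filter (fun x => ¬ ‖x1 x‖ = 1) with hAdef
  have hcard : F.card = B.card + A.card := by
    rw [hBdef, hAdef]
    exact (Finset.card_filter_add_card_filter_not (s := F) (fun x => ‖x1 x‖ = 1)).symm
  -- the folds
  have hAfold : ∀ x ∈ A, ‖x1 x‖ < 1 ∧ cx P Q (x1 x, w1 x) = 0 := by
    intro x hx
    rw [hAdef, Finset.mem_filter] at hx
    obtain ⟨-, -, -, -, -, h⟩ := hd x hx.1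
    rcases h with h | h
    · exact absurd h hx.2
    · exact h
  have hAF : ∀ x ∈ A, x ∈ F := fun x hx => (Finset.mem_filter.mp hx).1
  have hBF : ∀ x ∈ B, x ∈ F := fun x hx => (Finset.mem_filter.mp hx).1
  have hA2 : A.card ≤ 2 * (A.image (fun x => (x1 x, w1 x))).card := by
    apply Finset.card_le_mul_card_image
    intro q _
    by_contra hcon
    push Not at hcon
    obtain ⟨a, b, c, ha, hb, hc, hab, hac, hbc⟩ := Finset.two_lt_card_iff.mp hcon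
    rw [Finset.mem_filter] at ha hb hc
    have hwa : w1 a = q.2 := by rw [← ha.2]
    have hwb : w1 b = q.2 := by rw [← hb.2]
    have hwc : w1 c = q.2 := by rw [← hc.2]
    have hxa : x1 a = q.1 := by rw [← ha.2]
    have hxb : x1 b = q.1 := by rw [← hb.2]
    have hxc : x1 c = q.1 := by rw [← hc.2]
    obtain ⟨a1, a2, a3, a4, a5, -⟩ := hd a (hAF a ha.1)
    obtain ⟨b1, b2, b3, b4, b5, -⟩ := hd b (hAF b hb.1)
    obtain ⟨c1, c2, c3, c4, c5, -⟩ := hd c (hAF c hc.1)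
    have hRa : R a = ‖q.2‖ := by rw [← a4, hwa]
    have hRb : R b = ‖q.2‖ := by rw [← b4, hwb]
    have hRc : R c = ‖q.2‖ := by rw [← c4, hwc]
    rw [hRa] at a1 a2 a3 a5
    rw [hRb] at b3 b5
    rw [hRc] at c3 c5
    rw [hwa, hxa] at a5
    rw [hwb, hxb] at b5
    rw [hwc, hxc] at c5
    have hfa := hAfold a ha.1
    rw [hxa, hwa] at hfa
    have h3 := hTWO P Q r r0 ζ hH hr0 hr hRg ‖q.2‖ q.2 q.1 ![a, b, c] ![X a, X b, X c] a1 a2 rfl hfa.1 hfa.2 (by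
      intro i
      fin_cases i
      · exact ⟨hz a (hAF a ha.1), a3, a5⟩
      · exact ⟨hz b (hAF b hb.1), b3, b5⟩
      · exact ⟨hz c (hAF c hc.1), c3, c5⟩)
    have h4 : a = b ∨ a = c ∨ b = c := h3
    rcases h4 with h | h | h
    · exact hab h
    · exact hac h
    · exact hbc h
  have hA3 : ((A.image (fun x => (x1 x, w1 x))).card : ℝ≥0∞) ≤ cnt {q : ℂ × ℂ | q ∈ TB 1 r0 ∧ P q = ζ * Q q ∧ cx P Q q = 0} := by
    apply UCNT_card_le_cnt
    intro q hq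
    rw [Finset.mem_coe, Finset.mem_image] at hq
    obtain ⟨x, hx, rfl⟩ := hq
    obtain ⟨h1, h2, h3, h4, h5, -⟩ := hd x (hAF x hx)
    have hf := hAfold x hx
    refine ⟨⟨hf.1, ?_⟩, ?_, hf.2⟩
    · show ‖w1 x‖ < r0
      rw [h4]; exact h2
    · exact UCNT_lim_eq hH (by rw [h4]; linarith) hf.1 h5 (heq x (hAF x hx))
  have hA4 : (A.card : ℝ≥0∞) ≤ 2 * cnt {q : ℂ × ℂ | q ∈ TB 1 r0 ∧ P q = ζ * Q q ∧ cx P Q q = 0} := by
    calc (A.card : ℝ≥0∞) ≤ ((2 * (A.image (fun x => (x1 x, w1 x))).card : ℕ) : ℝ≥0∞) := by exact_mod_cast hA2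
      _ = 2 * ((A.image (fun x => (x1 x, w1 x))).card : ℝ≥0∞) := by push_cast; rfl
      _ ≤ _ := by gcongr
  -- the exits
  have hB1 : ∀ x ∈ B, (1 : ℝ≥0∞) ≤ ENNReal.ofReal C * ∫⁻ w in ball (0 : ℂ) r0,
      (ball (0 : ℂ) (R x)).indicator (fun w => ENNReal.ofReal (‖deriv (X x) w‖ ^ p)) w := by
    intro x hx
    obtain ⟨h1, h2, h3, h4, h5, -⟩ := hd x (hBF x hx)
    have hx1 : ‖x1 x‖ = 1 := (Finset.mem_filter.mp hx).2
    have h6 := hE (R x) (X x) h1 (by linarith) h3.an (UCNT_exit h3.ini (hhalf x (hBF x hx)) hx1 h5)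
    refine le_trans h6 (mul_le_mul' le_rfl ?_)
    rw [← lintegral_indicator measurableSet_ball, ← lintegral_indicator measurableSet_ball]
    refine lintegral_mono fun w => ?_
    by_cases hw : w ∈ ball (0 : ℂ) (R x)
    · have hw2 : w ∈ ball (0 : ℂ) r0 := ball_subset_ball h2.le hw
      rw [indicator_of_mem hw, indicator_of_mem hw2, indicator_of_mem hw]
    · rw [indicator_of_notMem hw]
      exact bot_le
  have hB2 : (B.card : ℝ≥0∞) ≤ ENNReal.ofReal C * ∫⁻ w in ball (0 : ℂ) r0, ∑' x : Rt P Q ζ w, ENNReal.ofReal ((‖cv P Q (x.1, w)‖ / ‖cx P Q (x.1, w)‖) ^ p) := by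
    calc (B.card : ℝ≥0∞) = ∑ x ∈ B, (1 : ℝ≥0∞) := by simp
      _ ≤ ∑ x ∈ B, ENNReal.ofReal C * ∫⁻ w in ball (0 : ℂ) r0,
          (ball (0 : ℂ) (R x)).indicator (fun w => ENNReal.ofReal (‖deriv (X x) w‖ ^ p)) w := Finset.sum_le_sum hB1
      _ = ENNReal.ofReal C * ∫⁻ w in ball (0 : ℂ) r0, ∑ x ∈ B,
          (ball (0 : ℂ) (R x)).indicator (fun w => ENNReal.ofReal (‖deriv (X x) w‖ ^ p)) w := by
        rw [← Finset.mul_sum, lintegral_finsetSum' B]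
        intro x _
        have hm : Measurable (fun w => ENNReal.ofReal (‖deriv (X x) w‖ ^ p)) :=
          ENNReal.measurable_ofReal.comp ((measurable_deriv (X x)).norm.pow_const p)
        exact (hm.indicator measurableSet_ball).aemeasurable
      _ ≤ _ := by
        gcongr with w
        exact UCNT_pt hALB hDIS hH hr0 hr hRg B R X (fun x hx => hz x (hBF x hx))
          (fun x hx => ⟨(hd x (hBF x hx)).1, (hd x (hBF x hx)).2.1⟩) (fun x hx => (hd x (hBF x hx)).2.2.1) w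
  calc (F.card : ℝ≥0∞) = (A.card : ℝ≥0∞) + (B.card : ℝ≥0∞) := by rw [hcard]; push_cast; ring
    _ ≤ _ := add_le_add hA4 hB2

end Pool.Agent.P2U
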