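import Pool.Agent.helper83.P2.SpecV

/-!
Row VL1 of project P2, block V: integral of the logarithm of one plus `K` over a quadratic form.
-/

set_option autoImplicit false

open scoped ContDiff Topology
open MeasureTheory Filter Set Metric MvPolynomial Pool.Agent.helper37.QA Pool.Agent.P2

namespace Pool.Agent.P2V

/-- The integral of `1/‖s‖` over a disc. -/
theorem VL1_pol (ρ : ℝ) (hρ : 0 < ρ) :
    ∫⁻ s in ball (0 : ℂ) ρ, ENNReal.ofReal (‖s‖⁻¹) ≤ ENNReal.ofReal (ρ * (2 * Real.pi)) := by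
  rw [← lintegral_indicator measurableSet_ball, ← Complex.lintegral_comp_polarCoord_symm]
  have h1 : ∀ p ∈ polarCoord.target, ENNReal.ofReal p.1 •
      (ball (0 : ℂ) ρ).indicator (fun s => ENNReal.ofReal (‖s‖⁻¹)) (Complex.polarCoord.symm p) ≤
      (Ioo 0 ρ ×ˢ Ioo (-Real.pi) Real.pi).indicator (fun _ => 1) p := by
    intro p hp
    rw [polarCoord_target] at hp
    obtain ⟨hp1, hp2⟩ := hp
    have hp1' : 0 < p.1 := hp1
    have hn : ‖Complex.polarCoord.symm p‖ = p.1 := by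
      rw [Complex.norm_polarCoord_symm, abs_of_pos hp1']
    by_cases h : p.1 < ρ
    · rw [indicator_of_mem (mem_ball_zero_iff.2 (by rw [hn]; exact h)),
        indicator_of_mem (show p ∈ Ioo 0 ρ ×ˢ Ioo (-Real.pi) Real.pi from ⟨⟨hp1', h⟩, hp2⟩), hn,
        smul_eq_mul, ← ENNReal.ofReal_mul hp1'.le, mul_inv_cancel₀ hp1'.ne', ENNReal.ofReal_one]
    · rw [indicator_of_notMem (by rw [mem_ball_zero_iff, hn]; exact h), smul_zero]
      exact bot_le
  refine (setLIntegral_mono' (polarCoord.open_target.measurableSet) h1).trans ?_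
  refine (setLIntegral_le_lintegral _ _).trans ?_
  rw [lintegral_indicator_const (measurableSet_Ioo.prod measurableSet_Ioo), Measure.volume_eq_prod,
    Measure.prod_prod, Real.volume_Ioo, Real.volume_Ioo, one_mul, ← ENNReal.ofReal_mul (by linarith)]
  exact ENNReal.ofReal_le_ofReal (le_of_eq (by ring))

theorem VL1_meas (s0 : ℂ) : Measurable fun s : ℂ => ENNReal.ofReal (‖s - s0‖⁻¹) := by
  fun_prop

/-- The same for another centre. -/
theorem VL1_two (ρ : ℝ) (hρ : 0 < ρ) (s0 : ℂ) :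
    ∫⁻ s in ball (0 : ℂ) ρ, ENNReal.ofReal (‖s - s0‖⁻¹) ≤
      ENNReal.ofReal (ρ * (2 * Real.pi)) + ENNReal.ofReal ρ⁻¹ * volume (ball (0 : ℂ) ρ) := by
  have h0 : ∀ s : ℂ, (ball (0 : ℂ) ρ).indicator (fun s => ENNReal.ofReal (‖s - s0‖⁻¹)) s ≤
      (ball (0 : ℂ) ρ).indicator (fun s => ENNReal.ofReal (‖s‖⁻¹)) (s - s0) +
      (ball (0 : ℂ) ρ).indicator (fun _ => ENNReal.ofReal ρ⁻¹) s := by
    intro s
    by_cases h : s ∈ ball (0 : ℂ) ρ
    · rw [indicator_of_mem h, indicator_of_mem h]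
      by_cases h' : s - s0 ∈ ball (0 : ℂ) ρ
      · rw [indicator_of_mem h']
        exact le_self_add
      · rw [indicator_of_notMem h', zero_add]
        have h2 : ρ ≤ ‖s - s0‖ := by
          rw [mem_ball_zero_iff] at h'
          exact not_lt.1 h'
        exact ENNReal.ofReal_le_ofReal (inv_anti₀ hρ h2)
    · rw [indicator_of_notMem h]
      exact bot_le
  rw [← lintegral_indicator measurableSet_ball]
  refine (lintegral_mono h0).trans ?_
  have hm : Measurable fun s : ℂ => (ball (0 : ℂ) ρ).indicator (fun _ => ENNReal.ofReal ρ⁻¹) s :=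
    measurable_const.indicator measurableSet_ball
  rw [lintegral_add_right _ hm, lintegral_sub_right_eq_self
    (fun s => (ball (0 : ℂ) ρ).indicator (fun s => ENNReal.ofReal (‖s‖⁻¹)) s) s0,
    lintegral_indicator measurableSet_ball, lintegral_indicator_const measurableSet_ball]
  exact add_le_add (VL1_pol ρ hρ) le_rfl

/-- Lower bound for the quadratic form. -/
theorem VL1_nq (b0 b1 : E3) (h : 0 < nq b1) :
    ∃ s0 : ℂ, ∀ s : ℂ, ‖s - s0‖ ^ 2 * nq b1 ≤ nq (b0 + s • b1) := by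
  set A : ℂ := ∑ i, (starRingEnd ℂ) (b1 i) * b0 i with hA
  set N : ℝ := nq b1 with hN
  have hNC : (N : ℂ) ≠ 0 := by
    exact_mod_cast h.ne'
  refine ⟨-A / N, fun s => ?_⟩
  set w : E3 := b0 + s • b1 with hw
  have h1 : ∑ i, (starRingEnd ℂ) (b1 i) * w i = (s - -A / N) * N := by
    have e1 : ∑ i, (starRingEnd ℂ) (b1 i) * w i = A + s * ∑ i, (starRingEnd ℂ) (b1 i) * b1 i := by
      rw [hA, Finset.mul_sum, ← Finset.sum_add_distrib]
      refine Finset.sum_congr rfl fun i _ => ?_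
      simp only [hw, Pi.add_apply, Pi.smul_apply, smul_eq_mul]
      ring
    have e2 : ∑ i, (starRingEnd ℂ) (b1 i) * b1 i = (N : ℂ) := by
      rw [hN, nq, Complex.ofReal_sum]
      refine Finset.sum_congr rfl fun i _ => ?_
      rw [mul_comm, Complex.mul_conj]
    rw [e1, e2]
    field_simp
    ring
  have h2 : ‖s - -A / N‖ * N ≤ ∑ i, ‖b1 i‖ * ‖w i‖ := by
    have e1 : ‖s - -A / N‖ * N = ‖(s - -A / N) * N‖ := by
      rw [norm_mul, Complex.norm_real, Real.norm_of_nonneg h.le]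
    rw [e1, ← h1]
    refine (norm_sum_le _ _).trans (le_of_eq ?_)
    refine Finset.sum_congr rfl fun i _ => ?_
    rw [norm_mul, RCLike.norm_conj]
  have h3 : (∑ i, ‖b1 i‖ * ‖w i‖) ^ 2 ≤ (∑ i, ‖b1 i‖ ^ 2) * ∑ i, ‖w i‖ ^ 2 :=
    Finset.sum_mul_sq_le_sq_mul_sq _ _ _
  have h4 : ∀ v : E3, ∑ i, ‖v i‖ ^ 2 = nq v := fun v => by
    rw [nq]
    exact Finset.sum_congr rfl fun i _ => (Complex.normSq_eq_norm_sq _).symm
  rw [h4, h4] at h3
  have h5 : (‖s - -A / N‖ * N) ^ 2 ≤ N * nq w := by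
    refine (pow_le_pow_left₀ (by positivity) h2 2).trans h3
  have h6 : N * (‖s - -A / N‖ ^ 2 * N) ≤ N * nq w := by
    calc N * (‖s - -A / N‖ ^ 2 * N) = (‖s - -A / N‖ * N) ^ 2 := by ring
      _ ≤ N * nq w := h5
  exact le_of_mul_le_mul_left h6 h

theorem VL1_log (C r : ℝ) (hC : 0 < C) (hr : 0 < r) : Real.log (1 + C / r ^ 2) ≤ 2 * √C * r⁻¹ := by
  have hs : 0 ≤ √C := Real.sqrt_nonneg C
  have hs2 : √C * √C = C := Real.mul_self_sqrt hC.le
  have h1 : 1 + C / r ^ 2 ≤ (1 + √C * r⁻¹) ^ 2 := by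
    have e1 : (1 + √C * r⁻¹) ^ 2 = 1 + 2 * (√C * r⁻¹) + (√C * √C) * (r⁻¹) ^ 2 := by ring
    have e2 : C / r ^ 2 = C * (r⁻¹) ^ 2 := by
      rw [div_eq_mul_inv, inv_pow]
    rw [e1, e2, hs2]
    have : 0 ≤ √C * r⁻¹ := by positivity
    linarith
  have h2 : 0 < 1 + C / r ^ 2 := by positivity
  calc Real.log (1 + C / r ^ 2) ≤ Real.log ((1 + √C * r⁻¹) ^ 2) := Real.log_le_log h2 h1
    _ = 2 * Real.log (1 + √C * r⁻¹) := by rw [Real.log_pow]; push_cast; rfl
    _ ≤ 2 * (√C * r⁻¹) := by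
        have h3 : Real.log (1 + √C * r⁻¹) ≤ 1 + √C * r⁻¹ - 1 :=
          Real.log_le_sub_one_of_pos (by positivity)
        linarith
    _ = 2 * √C * r⁻¹ := by ring

/-- Row VL1. -/
theorem VL1 : VL1_stmt := by
  intro ρ C hρ hC
  set V : ℝ := (volume (ball (0 : ℂ) ρ)).toReal with hV
  have hVt : volume (ball (0 : ℂ) ρ) ≠ ⊤ := measure_ball_lt_top.ne
  refine ⟨2 * √C * (ρ * (2 * Real.pi) + ρ⁻¹ * V) + 1, by positivity, ?_⟩
  intro K b0 b1 hK hKC
  have hn0 : 0 ≤ nq b1 := Finset.sum_nonneg fun i _ => Complex.normSq_nonneg _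
  rcases hn0.eq_or_lt with h | h
  · have hK0 : K = 0 := by
      rw [← h, mul_zero] at hKC
      exact le_antisymm hKC hK
    rw [hK0]
    simp
  · obtain ⟨s0, hs0⟩ := VL1_nq b0 b1 h
    have h1 : ∀ᵐ s ∂(volume.restrict (ball (0 : ℂ) ρ)),
        ENNReal.ofReal (Real.log (1 + K / nq (b0 + s • b1))) ≤
          ENNReal.ofReal (2 * √C) * ENNReal.ofReal (‖s - s0‖⁻¹) := by
      have h2 : ∀ᵐ s ∂(volume : Measure ℂ), s ≠ s0 := compl_mem_ae_iff.2 (measure_singleton s0)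
      filter_upwards [ae_restrict_of_ae h2] with s hs
      have hr : 0 < ‖s - s0‖ := norm_pos_iff.2 (sub_ne_zero.2 hs)
      have h3 : 0 < ‖s - s0‖ ^ 2 * nq b1 := by positivity
      have h4 : K / nq (b0 + s • b1) ≤ C / ‖s - s0‖ ^ 2 := by
        calc K / nq (b0 + s • b1) ≤ K / (‖s - s0‖ ^ 2 * nq b1) :=
              div_le_div_of_nonneg_left hK h3 (hs0 s)
          _ ≤ (C * nq b1) / (‖s - s0‖ ^ 2 * nq b1) := div_le_div_of_nonneg_right hKC h3.le
          _ = C / ‖s - s0‖ ^ 2 := by field_simp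
      have h5 : 0 ≤ K / nq (b0 + s • b1) := div_nonneg hK (h3.le.trans (hs0 s))
      rw [← ENNReal.ofReal_mul (by positivity)]
      refine ENNReal.ofReal_le_ofReal ((Real.log_le_log (by linarith) ?_).trans (VL1_log C _ hC hr))
      linarith
    refine (lintegral_mono_ae h1).trans ?_
    rw [lintegral_const_mul _ (VL1_meas s0)]
    have h6 : ENNReal.ofReal ρ⁻¹ * volume (ball (0 : ℂ) ρ) = ENNReal.ofReal (ρ⁻¹ * V) := by
      rw [ENNReal.ofReal_mul (by positivity), hV, ENNReal.ofReal_toReal hVt]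
    calc ENNReal.ofReal (2 * √C) * ∫⁻ s in ball (0 : ℂ) ρ, ENNReal.ofReal (‖s - s0‖⁻¹)
        ≤ ENNReal.ofReal (2 * √C) * (ENNReal.ofReal (ρ * (2 * Real.pi)) + ENNReal.ofReal (ρ⁻¹ * V)) := by
          rw [← h6]
          exact mul_le_mul' le_rfl (VL1_two ρ hρ s0)
      _ = ENNReal.ofReal (2 * √C * (ρ * (2 * Real.pi) + ρ⁻¹ * V)) := by
          rw [← ENNReal.ofReal_add (by positivity) (by positivity), ← ENNReal.ofReal_mul (by positivity)]
      _ ≤ _ := ENNReal.ofReal_le_ofReal (by linarith)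

end Pool.Agent.P2V
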